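import Pool.Agent.Helper58.FL2.Flag2
import Pool.Agent.Helper88.FL.Htpy
import Pool.Agent.Helper36.FL.Filt
import Pool.Agent.Helper41.FL2.V4
import Pool.Agent.Helper41.FL2.F2
import Pool.Agent.Helper53.FL2.HmAdj
import Pool.Agent.Helper53.FL2.Inj
import Pool.Agent.Helper61.FL2.BSegA
import Pool.Agent.Helper61.FL2.BSegC
import Pool.Agent.Helper61.FL2.ES
import Pool.Agent.Helper7.FL2.Ndh

/-!
# Project FL, stage 2, module F4

`ES_eps`: the counit `filt (ND D) ⟶ D` of a flagged category is, at level `i`, surjective on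
`k`-morphisms for `k < i` and an equivalence on spaces of `i`-morphisms.
`objHoEq_flat`: characterisation of the maps `filt X ⟶ D` whose adjoint is an equivalence.
-/

open CategoryTheory MonoidalCategory Opposite

set_option autoImplicit false

namespace Pool.Agent.Helper94.FL2

open _root_.FL Helper53FL2 Helper41FL2

open Pool.Agent.Helper88.FL (hoEq_of_isIso hoEq_of_arrow_iso)

open Pool.Agent.Helper36.FL (ND_injFib)

open Pool.Agent.Helper61.FL2 (spLoc_iff objHoEq_of_Hm ES_of_arrow_iso)

open Pool.Agent.Helper7.FL2 (ND_pt exists_NDHm vt_filt ES_NDHm)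

/-! ### Elementary facts -/

theorem cn_refl (B : SSet.{0}) (b : B.obj (op (SimplexCategory.mk 0))) : Cn B b b := by
  refine ⟨cst B b _, ?_, ?_⟩
  · exact (cst_map B b _).trans (cst_zero B b)
  · exact (cst_map B b _).trans (cst_zero B b)

section

variable {n : ℕ}

/-- `f = filt (flat f) ≫ eps D`. -/
theorem filt_flat_eps {X : SP (Th n)} {D : SP (Gn n)} (f : filt X ⟶ D) :
    (Functor.whiskerLeft (tower n).op (flat f) : filt X ⟶ filt (ND D)) ≫ eps D = f := by
  refine NatTrans.ext (funext fun g => ?_)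
  refine NatTrans.ext (funext fun k => ?_)
  refine ConcreteCategory.hom_ext _ _ fun x => ?_
  show (f.app g).app k ((X.map (Quiver.Hom.op (𝟙 ((tower n).obj g.unop)))).app k
    ((X.obj (op ((tower n).obj g.unop))).map (𝟙 k.unop).op x)) = (f.app g).app k x
  refine congrArg ((f.app g).app k) ?_
  refine Eq.trans ?_ (sp_id X x)
  exact congrArg ((X.map (Quiver.Hom.op (𝟙 ((tower n).obj g.unop)))).app k) (sset_id _ x)

/-- `flat (eps D) = 𝟙`. -/
theorem flat_eps (D : SP (Gn n)) : flat (eps D) = 𝟙 (ND D) := by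
  refine NatTrans.ext (funext fun a => ?_)
  refine NatTrans.ext (funext fun k => ?_)
  refine ConcreteCategory.hom_ext _ _ fun (φ : MpS (filt (rep a.unop)) D k.unop) => ?_
  refine MpS.ext ?_
  funext g m t (u : (tower n).obj g.unop ⟶ a.unop)
  show φ.app g m (𝟙 _ ≫ t) (𝟙 _ ≫ u) = φ.app g m t u
  rw [Category.id_comp, Category.id_comp]

end

section

variable {C : Type} [SmallCategory C]

theorem isIso_HmMap_of_eq {X : SP (Wr C)} (f : X ⟶ X) (h : f = 𝟙 X) (x y : Vt X) :
    IsIso (HmMap f x y) := by
  subst h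
  exact (inferInstance : IsIso (𝟙 (Hm X x y)))

/-- The map from the terminal presheaf given by a vertex. -/
noncomputable def ofVt (Z : SP (Wr C)) (y : Vt Z) : one (Wr C) ⟶ Z where
  app a :=
    { app := fun k => ↾ fun _ => (Z.map (Wr.toPt a.unop).op).app k (cst _ y k)
      naturality := fun k l α => by
        refine ConcreteCategory.hom_ext _ _ fun _ => ?_
        show (Z.map (Wr.toPt a.unop).op).app l (cst _ y l) =
          (Z.obj a).map α ((Z.map (Wr.toPt a.unop).op).app k (cst _ y k))
        rw [← sp_nat, cst_map] }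
  naturality a b f := by
    refine NatTrans.ext (funext fun k => ?_)
    refine ConcreteCategory.hom_ext _ _ fun _ => ?_
    show (Z.map (Wr.toPt b.unop).op).app k (cst _ y k) =
      (Z.map f).app k ((Z.map (Wr.toPt a.unop).op).app k (cst _ y k))
    rw [← sp_comp]
    refine congrArg (fun t => (Z.map t).app k (cst _ y k)) ?_
    refine Quiver.Hom.unop_inj ?_
    exact Wr.toPt_unique _ _

theorem ofVt_pt (Z : SP (Wr C)) (y : Vt Z) :
    ((ofVt Z y).app (op Wr.pt)).app (op (SimplexCategory.mk 0)) PUnit.unit = y := by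
  show (Z.map (Wr.toPt (Wr.pt : Wr C)).op).app _ (cst _ y _) = y
  have e : Wr.toPt (Wr.pt : Wr C) = 𝟙 _ := Wr.toPt_unique _ _
  rw [e, cst_zero]
  exact sp_id Z y

theorem empt_hom_ext {A : Type} [SmallCategory A] {Z : SP A} (f g : empt A ⟶ Z) : f = g := by
  refine NatTrans.ext (funext fun a => ?_)
  refine NatTrans.ext (funext fun k => ?_)
  refine ConcreteCategory.hom_ext _ _ fun (z : PEmpty) => z.elim

/-- The map from the empty presheaf. -/
noncomputable def ofEmpt {A : Type} [SmallCategory A] (Z : SP A) : empt A ⟶ Z where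
  app a :=
    { app := fun k => ↾ fun (z : PEmpty) => z.elim
      naturality := fun k l α => by
        refine ConcreteCategory.hom_ext _ _ fun (z : PEmpty) => z.elim }
  naturality a b f := by
    refine NatTrans.ext (funext fun k => ?_)
    refine ConcreteCategory.hom_ext _ _ fun (z : PEmpty) => z.elim

end

theorem isIso_wl {A B : Type} [SmallCategory A] [SmallCategory B] (F : A ⥤ B) {X Y : SP B}
    (f : X ⟶ Y) [IsIso f] :
    IsIso (Functor.whiskerLeft F.op f : (F.op ⋙ X : SP A) ⟶ F.op ⋙ Y) := by
  have h : ∀ a, IsIso ((Functor.whiskerLeft F.op f : (F.op ⋙ X : SP A) ⟶ F.op ⋙ Y).app a) :=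
    fun a => (inferInstance : IsIso (f.app (F.op.obj a)))
  exact NatIso.isIso_of_isIso_app _

theorem isIso_levelHom {n : ℕ} {X Y : SP (Gn n)} (f : X ⟶ Y) [IsIso f] (i : Fin (n + 1)) :
    IsIso (levelHom f i) := isIso_wl (Prod.sectL (Th n) (op i)) f

/-! ### F4: `ES_eps` -/

theorem ES_eps {n : ℕ} {D : SP (Gn n)} (hD : Flagged D) (i : Fin (n + 1)) :
    ES n i (levelHom (eps D) i) := by
  induction n with
  | zero =>
    obtain rfl : i = 0 := Fin.ext (by omega)
    have := ND_pt D
    exact hoEq_of_isIso ((eps D).app (op (ptT 0, op 0)))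
  | succ n ih =>
    refine Fin.cases ?_ (fun j => ?_) i
    · have := ND_pt D
      exact hoEq_of_isIso ((eps D).app (op (ptT (n + 1), op 0)))
    · refine ⟨fun y => ?_, fun a b => ?_⟩
      · obtain ⟨z, -, hz⟩ := hD.surj 0 j.succ (Fin.zero_le _) 0 (le_refl _) _ _ _
          (IsBd.zero (n + 1)) (ofEmpt _) (ofVt (C := Th n) _ y) (empt_hom_ext _ _)
        have hiso := ND_pt D
        -- the vertex of `level D 0`
        have h1 : ∃ w : (((filt (ND D)).obj (op (ptT (n + 1), op 0))).obj
            (op (SimplexCategory.mk 0))),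
            ((eps D).app (op (ptT (n + 1), op 0))).app _ w =
              (z.app (op (ptT (n + 1)))).app (op (SimplexCategory.mk 0)) PUnit.unit := by
          have hiso2 : IsIso (((eps D).app (op (ptT (n + 1), op 0))).app
            (op (SimplexCategory.mk 0))) := inferInstance
          have hb := (isIso_iff_bijective _).mp hiso2
          exact hb.2 _
        obtain ⟨w, hw⟩ := h1
        refine ⟨vtMap (C := Th n) (levelMap (filt (ND D)) (Fin.zero_le j.succ)) w, ?_⟩
        have h2 : vtMap (C := Th n) (levelHom (eps D) j.succ)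
            (vtMap (C := Th n) (levelMap (filt (ND D)) (Fin.zero_le j.succ)) w) = y := by
          refine (hom_nat (eps D) ((NatTrans.op (secMap (Fin.zero_le j.succ))).app
            (op (ptT (n + 1)))) w).trans ?_
          refine (congrArg (((D.map ((NatTrans.op (secMap (Fin.zero_le j.succ))).app
            (op (ptT (n + 1)))))).app _) hw).trans ?_
          have h3 := congrArg (fun t : one (Th (n + 1)) ⟶ level D j.succ =>
            (t.app (op (ptT (n + 1)))).app (op (SimplexCategory.mk 0)) PUnit.unit) hz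
          exact h3.trans (ofVt_pt (C := Th n) _ y)
        rw [h2]
        exact cn_refl _ _
      · obtain ⟨f', hf', e, he⟩ := exists_NDHm (eps D)
          (((ND D).map ((trUnit (n + 1) j.succ).app (ptT (n + 1))).op).app _ a)
          (((ND D).map ((trUnit (n + 1) j.succ).app (ptT (n + 1))).op).app _ b)
        have h1 := (ES_NDHm (eps D) _ _ f' hf' j a b rfl rfl).2.2 j
        refine h1.mpr ?_
        have h2 : IsIso (flat f') := by
          have h3 : flat f' = HmMap (C := Th n) (flat (eps D)) _ _ ≫ e.inv := by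
            rw [← he, Category.assoc, Iso.hom_inv_id, Category.comp_id]
          rw [h3]
          have := isIso_HmMap_of_eq (C := Th n) (flat (eps D)) (flat_eps D)
            (((ND D).map ((trUnit (n + 1) j.succ).app (ptT (n + 1))).op).app _ a)
            (((ND D).map ((trUnit (n + 1) j.succ).app (ptT (n + 1))).op).app _ b)
          infer_instance
        have h4 := ih (FHm_flagged hD (vf (eps D)
          (((ND D).map ((trUnit (n + 1) j.succ).app (ptT (n + 1))).op).app _ a)) (vf (eps D)
          (((ND D).map ((trUnit (n + 1) j.succ).app (ptT (n + 1))).op).app _ b))) j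
        have h5 := filt_flat_eps f'
        have h6 := isIso_wl (tower n) (flat f')
        have h7 := @isIso_levelHom _ (filt _) (filt _)
          (Functor.whiskerLeft (tower n).op (flat f')) h6 j
        refine ES_of_arrow_iso (asIso (levelHom (X := filt _) (Y := filt _)
          (Functor.whiskerLeft (tower n).op (flat f')) j)).symm (Iso.refl _) ?_ h4
        rw [Iso.symm_hom, asIso_inv, Iso.refl_hom, Category.comp_id, IsIso.eq_inv_comp]
        exact congrArg (fun t => levelHom t j) h5

/-! ### F5: `objHoEq_flat` -/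

theorem hoEq_of_comp_iso {P Q R : SSet.{0}} (u : P ⟶ Q) (v : Q ⟶ R) [IsIso v] (f : P ⟶ R)
    (w : u ≫ v = f) (h : HoEq f) : HoEq u := by
  refine hoEq_of_arrow_iso (Iso.refl _) (asIso v).symm ?_ h
  rw [Iso.refl_hom, Category.id_comp, Iso.symm_hom, asIso_inv, IsIso.comp_inv_eq]
  exact w.symm

theorem flat_pt {n : ℕ} {X : SP (Th n)} {D : SP (Gn n)} (f : filt X ⟶ D)
    (h : HoEq (f.app (op (ptT n, op 0)))) :
    HoEq ((flat f).app (op ((tower n).obj (ptT n, op 0)))) := by
  have := ND_pt D
  refine @hoEq_of_comp_iso _ _ _ _ ((eps D).app (op (ptT n, op 0))) this _ ?_ h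
  exact NatTrans.congr_app (filt_flat_eps f) (op (ptT n, op 0))

theorem cn_univ {n : ℕ} (X : SP (Th (n + 1))) (z : Vt (C := Th n) X) :
    ∃ x ∈ (Set.univ : Set (Vt (C := Th n) X)), Cn (X.obj (op (ptT (n + 1)))) x z :=
  ⟨z, trivial, cn_refl _ _⟩

theorem objHoEq_flat {n : ℕ} {X : SP (Th n)} {D : SP (Gn n)} (hX : Sg n X) (hD : InjFib D)
    (hc : ∀ i, IsCat n (level D i)) (hN : Sg n (ND D)) (f : filt X ⟶ D)
    (h : ∀ i : Fin (n + 1), ES n i (levelHom f i)) : ObjHoEq (flat f) := by
  induction n with
  | zero =>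
    intro a
    exact flat_pt f (h 0)
  | succ n ih =>
    have hX' := (sg_succ_iff hX.1 Set.univ (cn_univ X)).mp hX
    have hN' := (sg_succ_iff hN.1 Set.univ (cn_univ (ND D))).mp hN
    refine objHoEq_of_Hm (C := Th n) (InjFib.vfib hX.1) (InjFib.vfib hN.1)
      ((spLoc_iff hX.1).mp hX'.1) ((spLoc_iff hN.1).mp hN'.1) (flat_pt f (h 0))
      Set.univ (cn_univ X) ?_
    intro x _ y _
    obtain ⟨f', hf', e, he⟩ := exists_NDHm f x y
    have he' : ObjHoEq e.hom := fun a => hoEq_of_isIso (e.hom.app a)
    have hNF : InjFib (ND (FHm D (vf f x) (vf f y))) := ND_injFib (FHm_injFib hD _ _)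
    have key : ObjHoEq (flat f') := by
      refine ih (hX'.2 x trivial y trivial) (FHm_injFib hD _ _) (fun i => ?_) ?_ f' (fun i => ?_)
      · have h1 := isCat_iff.mp (hc i.succ)
        have h2 := (sg_succ_iff h1.1.1 Set.univ (cn_univ (level D i.succ))).mp h1.1
        refine isCat_iff.mpr ⟨h2.2 (vlev D (vf f x) i.succ) trivial
          (vlev D (vf f y) i.succ) trivial, fun j => ?_⟩
        exact (cj_succ_iff h1.1.1 Set.univ (cn_univ (level D i.succ))).mp (h1.2 (j + 1))
          (vlev D (vf f x) i.succ) trivial (vlev D (vf f y) i.succ) trivial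
      · have h1 := hN'.2 (vtMap (C := Th n) (flat f) x) trivial (vtMap (C := Th n) (flat f) y)
          trivial
        exact (sg_of_objHoEq hNF h1.1 he').mpr h1
      · obtain ⟨a, ha⟩ := (vt_filt X i).2 x
        obtain ⟨b, hb⟩ := (vt_filt X i).2 y
        exact ((ES_NDHm f x y f' hf' i a b ha hb).2.2 i).mp ((h i.succ).2 a b)
    intro a
    rw [← he]
    exact hoEq_of_arrow_iso (Iso.refl _) ((Iso.app e a)) (by simp) (key a)

end Pool.Agent.Helper94.FL2
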